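import Pool.Agent.Helper749.PReg

set_option autoImplicit false

namespace Pool.Agent.Y310.PR

open MeasureTheory Set Filter Topology
open Pool.Agent.Helper749.PReg
open scoped ENNReal ContDiff

/-- Euclidean space of dimension `n`. -/
abbrev EE (n : ℕ) := EuclideanSpace ℝ (Fin n)

/-- Forget the first coordinate. -/
noncomputable def prj (n : ℕ) : EE (n + 1) →L[ℝ] EE n :=
  LinearMap.toContinuousLinearMap
    { toFun := fun x => WithLp.toLp 2 fun i => x i.succ
      map_add' := fun x y => by ext i; simp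
      map_smul' := fun c x => by ext i; simp }

@[simp] lemma prj_apply {n : ℕ} (x : EE (n + 1)) (i : Fin n) : prj n x i = x i.succ := rfl

/-- Put `0` in front. -/
noncomputable def inj (n : ℕ) : EE n →ₗᵢ[ℝ] EE (n + 1) where
  toFun := fun x => WithLp.toLp 2 (Fin.cons 0 fun i => x i)
  map_add' := fun x y => by
    ext i
    refine Fin.cases ?_ (fun j => ?_) i <;> simp
  map_smul' := fun c x => by
    ext i
    refine Fin.cases ?_ (fun j => ?_) i <;> simp
  norm_map' := fun x => by
    rw [EuclideanSpace.norm_eq, EuclideanSpace.norm_eq]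
    congr 1
    simp [Fin.sum_univ_succ]

@[simp] lemma inj_zero {n : ℕ} (x : EE n) : inj n x 0 = 0 := rfl

@[simp] lemma inj_succ {n : ℕ} (x : EE n) (i : Fin n) : inj n x i.succ = x i := rfl

/-- Put `t` in front. -/
noncomputable def pt {n : ℕ} (t : ℝ) (x : EE n) : EE (n + 1) :=
  inj n x + t • EuclideanSpace.single 0 1

@[simp] lemma pt_zero {n : ℕ} (t : ℝ) (x : EE n) : pt t x 0 = t := by
  simp [pt]

@[simp] lemma pt_succ {n : ℕ} (t : ℝ) (x : EE n) (i : Fin n) : pt t x i.succ = x i := by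
  simp [pt]

@[simp] lemma prj_pt {n : ℕ} (t : ℝ) (x : EE n) : prj n (pt t x) = x := by
  ext i
  simp

lemma pt_prj {n : ℕ} (x : EE (n + 1)) : pt (x 0) (prj n x) = x := by
  ext i
  refine Fin.cases ?_ (fun j => ?_) i <;> simp

/-- The measurable splitting of the first coordinate. -/
noncomputable def spl (n : ℕ) : EE (n + 1) ≃ᵐ ℝ × EE n :=
  (MeasurableEquiv.toLp 2 (Fin (n + 1) → ℝ)).symm.trans
    ((MeasurableEquiv.piFinSuccAbove (fun _ => ℝ) 0).trans
      (MeasurableEquiv.prodCongr (MeasurableEquiv.refl ℝ)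
        (MeasurableEquiv.toLp 2 (Fin n → ℝ))))

lemma spl_apply {n : ℕ} (x : EE (n + 1)) : spl n x = (x 0, prj n x) := by
  rfl

lemma spl_symm {n : ℕ} (z : ℝ × EE n) : (spl n).symm z = pt z.1 z.2 := by
  rw [MeasurableEquiv.symm_apply_eq, spl_apply]
  simp

lemma mp_spl (n : ℕ) : MeasurePreserving (spl n) volume (volume.prod volume) := by
  have h1 := EuclideanSpace.volume_preserving_symm_measurableEquiv_toLp (Fin (n + 1))
  have h2 := volume_preserving_piFinSuccAbove (fun _ : Fin (n + 1) => ℝ) 0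
  have h3 : MeasurePreserving (MeasurableEquiv.toLp 2 (Fin n → ℝ)) volume volume :=
    (EuclideanSpace.volume_preserving_symm_measurableEquiv_toLp (Fin n)).symm
  have h4 : MeasurePreserving (MeasurableEquiv.prodCongr (MeasurableEquiv.refl ℝ)
        (MeasurableEquiv.toLp 2 (Fin n → ℝ))) (volume.prod volume) (volume.prod volume) :=
    (MeasurePreserving.id (volume : Measure ℝ)).prod h3
  exact h4.comp (h2.comp h1)

/-- The measure on the cylinder. -/
lemma mp_cyl {n : ℕ} {Ω : Set (EE n)} (hΩ : MeasurableSet Ω) :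
    MeasurePreserving (spl n) (volume.restrict (prj n ⁻¹' Ω))
      ((volume : Measure ℝ).prod (volume.restrict Ω)) := by
  have h := (mp_spl n).restrict_preimage (s := univ ×ˢ Ω) (MeasurableSet.univ.prod hΩ)
  have e : spl n ⁻¹' (univ ×ˢ Ω) = prj n ⁻¹' Ω := by
    ext x
    simp [spl_apply]
  rw [e, ← Measure.prod_restrict, Measure.restrict_univ] at h
  exact h

lemma integral_cyl {n : ℕ} {Ω : Set (EE n)} (hΩ : MeasurableSet Ω) (F : EE (n + 1) → ℝ) :
    ∫ x in prj n ⁻¹' Ω, F x =
      ∫ z, F (pt z.1 z.2) ∂((volume : Measure ℝ).prod (volume.restrict Ω)) := by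
  have h := (mp_cyl hΩ).integral_comp' (fun z => F (pt z.1 z.2))
  rw [← h]
  refine integral_congr_ae (Eventually.of_forall fun x => ?_)
  simp only [spl_apply, pt_prj]

lemma integrable_cyl {n : ℕ} {Ω : Set (EE n)} (hΩ : MeasurableSet Ω) {F : EE (n + 1) → ℝ}
    (hF : Integrable F (volume.restrict (prj n ⁻¹' Ω))) :
    Integrable (fun z : ℝ × EE n => F (pt z.1 z.2))
      ((volume : Measure ℝ).prod (volume.restrict Ω)) := by
  have h := (mp_cyl hΩ).integrable_comp_emb (spl n).measurableEmbedding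
    (g := fun z => F (pt z.1 z.2))
  rw [← h]
  refine hF.congr (Eventually.of_forall fun x => ?_)
  simp only [Function.comp, spl_apply, pt_prj]

lemma continuous_pt {n : ℕ} (t : ℝ) : Continuous (pt t : EE n → EE (n + 1)) := by
  unfold pt
  exact (inj n).continuous.add continuous_const

lemma contDiff_pt {n : ℕ} (t : ℝ) : ContDiff ℝ ∞ (pt t : EE n → EE (n + 1)) := by
  unfold pt
  exact (inj n).contDiff.add contDiff_const

lemma norm_pt_sub {n : ℕ} (t : ℝ) (x y : EE n) : ‖pt t x - pt t y‖ = ‖x - y‖ := by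
  unfold pt
  rw [add_sub_add_right_eq_sub, ← map_sub, LinearIsometry.norm_map]

lemma isClosedEmbedding_pt {n : ℕ} (t : ℝ) : IsClosedEmbedding (pt t : EE n → EE (n + 1)) := by
  refine Isometry.isClosedEmbedding (Isometry.of_dist_eq fun x y => ?_)
  rw [dist_eq_norm, dist_eq_norm, norm_pt_sub]

lemma hasFDerivAt_pt {n : ℕ} (t : ℝ) (x : EE n) :
    HasFDerivAt (pt t : EE n → EE (n + 1)) (inj n).toContinuousLinearMap x := by
  unfold pt
  exact ((inj n).toContinuousLinearMap.hasFDerivAt).add_const _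

/-- Restriction of a test function to a hyperplane. -/
lemma isTest_slice {n : ℕ} {Ω : Set (EE n)} {φ : EE (n + 1) → ℝ}
    (hφ : IsTest (prj n ⁻¹' Ω) φ) (t : ℝ) : IsTest Ω fun x => φ (pt t x) := by
  obtain ⟨h1, h2, h3⟩ := hφ
  refine ⟨h1.comp (contDiff_pt t), h2.comp_isClosedEmbedding (isClosedEmbedding_pt t), ?_⟩
  refine (tsupport_comp_subset_preimage φ (continuous_pt t)).trans ?_
  intro x hx
  have := h3 hx
  simpa using this

lemma pd_slice {n : ℕ} {φ : EE (n + 1) → ℝ} (hφ : Differentiable ℝ φ) (t : ℝ) (x : EE n)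
    (i : Fin n) : pd i (fun x => φ (pt t x)) x = pd i.succ φ (pt t x) := by
  unfold pd
  have h : HasFDerivAt (fun x => φ (pt t x))
      ((fderiv ℝ φ (pt t x)).comp (inj n).toContinuousLinearMap) x :=
    (hφ (pt t x)).hasFDerivAt.comp x (hasFDerivAt_pt t x)
  rw [h.fderiv, ContinuousLinearMap.comp_apply]
  congr 1
  ext j
  refine Fin.cases ?_ (fun k => ?_) j
  · simp
  · simp [Fin.succ_inj]

end Pool.Agent.Y310.PR
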