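import Pool.Agent.Y310.PR.Geo

set_option autoImplicit false

namespace Pool.Agent.Y310.PR

open MeasureTheory Set Filter Topology
open Pool.Agent.Helper749.PReg
open scoped ENNReal ContDiff

variable {n : ℕ} {p : ℝ} {Ω : Set (EuclideanSpace ℝ (Fin n))}

/-- Functions in `L^p_loc` lift to the cylinder. -/
lemma memLpLoc_lift {f : EuclideanSpace ℝ (Fin n) → ℝ} (hf : MemLpLoc p Ω f) :
    MemLpLoc p (prj n ⁻¹' Ω) fun x => f (prj n x) := by
  intro K hK hKΩ
  set K1 : Set (EE n) := prj n '' K with hK1
  set K0 : Set ℝ := (fun x : EE (n + 1) => x 0) '' K with hK0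
  have c1 : IsCompact K1 := hK.image (prj n).continuous
  have c0 : IsCompact K0 := hK.image (by fun_prop)
  have s1 : K1 ⊆ Ω := by
    rintro _ ⟨x, hx, rfl⟩
    exact hKΩ hx
  have h1 := hf K1 c1 s1
  haveI : IsFiniteMeasure ((volume : Measure ℝ).restrict K0) :=
    ⟨by rw [Measure.restrict_apply_univ]; exact c0.measure_lt_top⟩
  have h2 := h1.comp_snd ((volume : Measure ℝ).restrict K0)
  rw [Measure.prod_restrict] at h2
  have h3 := (mp_spl n).restrict_preimage (s := K0 ×ˢ K1)
    (c0.measurableSet.prod c1.measurableSet)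
  have h4 := h2.comp_measurePreserving h3
  have h5 : K ⊆ spl n ⁻¹' (K0 ×ˢ K1) := by
    intro x hx
    rw [mem_preimage, spl_apply]
    exact ⟨⟨x, hx, rfl⟩, ⟨x, hx, rfl⟩⟩
  have h6 := h4.mono_measure (Measure.restrict_mono h5 le_rfl)
  exact h6

/-- A locally integrable function times a continuous function with compact support. -/
lemma integrable_mul {m : ℕ} {U : Set (EE m)} (hp : 1 < p) {f g : EE m → ℝ}
    (hf : MemLpLoc p U f) (hg : Continuous g) (hc : HasCompactSupport g) (hs : tsupport g ⊆ U) :
    Integrable (fun x => f x * g x) (volume.restrict U) := by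
  have hK : IsCompact (tsupport g) := hc
  haveI : IsFiniteMeasure ((volume : Measure (EE m)).restrict (tsupport g)) :=
    ⟨by rw [Measure.restrict_apply_univ]; exact hK.measure_lt_top⟩
  have h1 : Integrable f (volume.restrict (tsupport g)) :=
    (hf _ hK hs).integrable (by
      rw [← ENNReal.ofReal_one]
      exact ENNReal.ofReal_le_ofReal hp.le)
  obtain ⟨C, hC⟩ := hc.exists_bound_of_continuous hg
  have h2 : IntegrableOn (fun x => f x * g x) (tsupport g) := by
    exact h1.mul_bdd hg.aestronglyMeasurable (Eventually.of_forall hC)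
  have h3 : Integrable (fun x => f x * g x) := by
    refine (integrableOn_iff_integrable_of_support_subset ?_).mp h2
    intro x hx
    apply subset_tsupport g
    intro h0
    apply hx
    simp only [h0, mul_zero]
  exact h3.integrableOn

lemma continuous_pd {m : ℕ} {φ : EE m → ℝ} (hφ : ContDiff ℝ ∞ φ) (i : Fin m) :
    Continuous (pd i φ) := by
  unfold pd
  exact (hφ.continuous_fderiv (by simp)).clm_apply continuous_const

lemma tsupport_pd {m : ℕ} {φ : EE m → ℝ} (i : Fin m) : tsupport (pd i φ) ⊆ tsupport φ := by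
  have h : tsupport (pd i φ) ⊆ tsupport (fderiv ℝ φ) := by
    refine closure_mono ?_
    intro x hx
    intro h0
    apply hx
    simp only [pd, h0, ContinuousLinearMap.zero_apply]
  exact h.trans (tsupport_fderiv_subset ℝ)

lemma compact_pd {m : ℕ} {φ : EE m → ℝ} (hφ : HasCompactSupport φ) (i : Fin m) :
    HasCompactSupport (pd i φ) :=
  IsCompact.of_isClosed_subset hφ (isClosed_tsupport _) (tsupport_pd i)

/-- The integral of a derivative along the first axis. -/
lemma integral_pd_zero {φ : EE (n + 1) → ℝ} (hφ : ContDiff ℝ ∞ φ) (hc : HasCompactSupport φ)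
    (x : EE n) : ∫ t : ℝ, pd 0 φ (pt t x) = 0 := by
  have hd : ∀ t : ℝ, HasDerivAt (fun t : ℝ => (pt t x : EE (n + 1)))
      (EuclideanSpace.single 0 1) t := by
    intro t
    unfold pt
    have := ((hasDerivAt_id t).smul_const (EuclideanSpace.single 0 1 : EE (n + 1))).const_add
      (inj n x)
    simpa using this
  have hemb : IsClosedEmbedding (fun t : ℝ => (pt t x : EE (n + 1))) := by
    refine Isometry.isClosedEmbedding (Isometry.of_dist_eq fun s t => ?_)
    rw [dist_eq_norm, dist_eq_norm]
    unfold pt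
    rw [add_sub_add_left_eq_sub, ← sub_smul, norm_smul, EuclideanSpace.norm_single, norm_one,
      mul_one]
  have h1 : ∀ t : ℝ, HasDerivAt (fun t : ℝ => φ (pt t x)) (pd 0 φ (pt t x)) t := by
    intro t
    exact ((hφ.differentiable (by simp)) (pt t x)).hasFDerivAt.comp_hasDerivAt t (hd t)
  refine integral_eq_zero_of_hasDerivAt_of_integrable h1 ?_ ?_
  · exact ((continuous_pd hφ 0).comp hemb.continuous).integrable_of_hasCompactSupport
      ((compact_pd hc 0).comp_isClosedEmbedding hemb)
  · exact (hφ.continuous.comp hemb.continuous).integrable_of_hasCompactSupport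
      (hc.comp_isClosedEmbedding hemb)

/-- The gradient of the lift. -/
noncomputable def lG (G : EE n → EE n) (x : EE (n + 1)) : EE (n + 1) := inj n (G (prj n x))

lemma weakGrad_lift (hΩ : IsOpen Ω) (hp : 1 < p) {u : EE n → ℝ} {G : EE n → EE n}
    (hu : MemLpLoc p Ω u) (hG : ∀ i, MemLpLoc p Ω fun x => G x i) (h : IsWeakGrad Ω u G) :
    IsWeakGrad (prj n ⁻¹' Ω) (fun x => u (prj n x)) (lG G) := by
  intro φ hφ i
  have hm := hΩ.measurableSet
  have hcs : HasCompactSupport (pd i φ) := compact_pd hφ.2.1 i
  have hsu : tsupport (pd i φ) ⊆ prj n ⁻¹' Ω := (tsupport_pd i).trans hφ.2.2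
  have int1 := integrable_mul hp (memLpLoc_lift hu) (continuous_pd hφ.1 i) hcs hsu
  have int1' := integrable_cyl hm int1
  rw [integral_cyl hm, integral_cyl hm]
  revert int1' hcs hsu int1
  refine Fin.cases ?_ (fun j => ?_) i
  · intro _ _ _ int1'
    have e2 : ∀ z : ℝ × EE n, lG G (pt z.1 z.2) 0 * φ (pt z.1 z.2) = 0 := by
      intro z
      simp [lG]
    simp only [e2, integral_zero, neg_zero]
    rw [integral_prod_symm _ int1']
    have : ∀ y : EE n, ∫ t : ℝ, u (prj n (pt t y)) * pd 0 φ (pt t y) = 0 := by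
      intro y
      simp only [prj_pt]
      rw [integral_const_mul, integral_pd_zero hφ.1 hφ.2.1 y, mul_zero]
    simp only [this, integral_zero]
  · intro _ _ _ int1'
    have int2 := integrable_mul hp (memLpLoc_lift (hG j)) hφ.1.continuous hφ.2.1 hφ.2.2
    have int2' := integrable_cyl hm int2
    rw [integral_prod _ int1']
    have e2 : ∀ z : ℝ × EE n, lG G (pt z.1 z.2) j.succ * φ (pt z.1 z.2)
        = G (prj n (pt z.1 z.2)) j * φ (pt z.1 z.2) := by
      intro z
      simp [lG]
    simp only [e2]
    rw [integral_prod _ int2', ← integral_neg]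
    congr 1
    ext t
    have h3 := h _ (isTest_slice hφ t) j
    simp only [prj_pt]
    rw [← h3]
    refine integral_congr_ae (Eventually.of_forall fun x => ?_)
    simp only
    rw [pd_slice (hφ.1.differentiable (by simp)) t x j]

/-- Cylindrical extension of `p`-harmonic functions. -/
theorem isPHarmonic_lift (hΩ : IsOpen Ω) (hp : 1 < p) {u : EE n → ℝ} (hu : IsPHarmonic p Ω u) :
    IsPHarmonic p (prj n ⁻¹' Ω) fun x => u (prj n x) := by
  obtain ⟨h1, G, h2, h3, h4⟩ := hu
  refine ⟨memLpLoc_lift h1, lG G, ?_, weakGrad_lift hΩ hp h1 h2 h3, ?_⟩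
  · intro i
    refine Fin.cases ?_ (fun j => ?_) i
    · intro K _ _
      have : (fun x : EE (n + 1) => lG G x 0) = fun _ => 0 := by
        ext x
        simp [lG]
      rw [this]
      exact MemLp.zero'
    · exact memLpLoc_lift (h2 j)
  · intro φ hφ
    rw [integral_cyl hΩ.measurableSet]
    by_cases hint : Integrable (fun z : ℝ × EE n => ‖lG G (pt z.1 z.2)‖ ^ (p - 2) *
        ∑ i, lG G (pt z.1 z.2) i * pd i φ (pt z.1 z.2))
        ((volume : Measure ℝ).prod (volume.restrict Ω))
    · rw [integral_prod _ hint]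
      have : ∀ t : ℝ, (∫ x in Ω, ‖lG G (pt t x)‖ ^ (p - 2) *
          ∑ i, lG G (pt t x) i * pd i φ (pt t x)) = 0 := by
        intro t
        rw [← h4 _ (isTest_slice hφ t)]
        refine integral_congr_ae (Eventually.of_forall fun x => ?_)
        simp only
        rw [Fin.sum_univ_succ]
        simp only [lG, prj_pt, inj_zero, inj_succ, zero_mul, zero_add, LinearIsometry.norm_map]
        congr 1
        refine Finset.sum_congr rfl fun i _ => ?_
        rw [pd_slice (hφ.1.differentiable (by simp)) t x i]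
      simp only [this, integral_zero]
    · exact integral_undef hint

/-- Regularity of the lift implies regularity. -/
theorem regLoc_of_lift (hΩ : IsOpen Ω) {s : ℝ} {u : EE n → ℝ}
    (h : RegLoc s (prj n ⁻¹' Ω) fun x => u (prj n x)) : RegLoc s Ω u := by
  obtain ⟨k, α, hα0, hα1, hs, v, hv1, hv2, hv3⟩ := h
  refine ⟨k, α, hα0, hα1, hs, ?_⟩
  have hO : IsOpen (prj n ⁻¹' Ω) := hΩ.preimage (prj n).continuous
  have ae1 : ∀ᵐ z ∂((volume : Measure ℝ).prod (volume.restrict Ω)),
      u z.2 = v (pt z.1 z.2) := by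
    have hmp := mp_cyl (n := n) hΩ.measurableSet
    have := (hmp.symm (spl n)).quasiMeasurePreserving.ae hv1
    filter_upwards [this] with z hz
    rw [spl_symm] at hz
    simpa using hz
  have ae2 := Measure.ae_ae_of_ae_prod ae1
  obtain ⟨t, ht⟩ := ae2.exists
  refine ⟨fun x => v (pt t x), ht, ?_, ?_⟩
  · refine hv2.comp ((contDiff_pt t).of_le (by exact_mod_cast le_top)).contDiffOn ?_
    intro x hx
    simpa using hx
  · have hder : ∀ x ∈ Ω, iteratedFDeriv ℝ k (fun x => v (pt t x)) x =
        (iteratedFDeriv ℝ k v (pt t x)).compContinuousLinearMap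
          fun _ => (inj n).toContinuousLinearMap := by
      intro x hx
      set w : EE (n + 1) → ℝ := fun y => v (y + t • EuclideanSpace.single 0 1) with hw
      set S : Set (EE (n + 1)) := (fun y => y + t • EuclideanSpace.single 0 1) ⁻¹'
        (prj n ⁻¹' Ω) with hS
      have hSo : IsOpen S := hO.preimage (by fun_prop)
      have hwS : ContDiffOn ℝ k w S :=
        hv2.comp (contDiff_id.add contDiff_const).contDiffOn (fun y hy => hy)
      have hpre : (inj n).toContinuousLinearMap ⁻¹' S = Ω := by
        ext y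
        change prj n (pt t y) ∈ Ω ↔ y ∈ Ω
        rw [prj_pt]
      have e1 := (inj n).toContinuousLinearMap.iteratedFDerivWithin_comp_right hwS
        hSo.uniqueDiffOn (by rw [hpre]; exact hΩ.uniqueDiffOn) (x := x)
        (by rw [← mem_preimage, hpre]; exact hx) (i := k) le_rfl
      rw [hpre, iteratedFDerivWithin_of_isOpen k hΩ hx,
        iteratedFDerivWithin_of_isOpen k hSo (by rw [← mem_preimage, hpre]; exact hx)] at e1
      have e2 : iteratedFDeriv ℝ k w ((inj n).toContinuousLinearMap x)
          = iteratedFDeriv ℝ k v (pt t x) := by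
        rw [hw, iteratedFDeriv_comp_add_right]
        rfl
      rw [e2] at e1
      exact e1
    intro K hK hKΩ
    obtain ⟨C, hC⟩ := hv3 (pt t '' K) (hK.image (continuous_pt t)) (by
      rintro _ ⟨x, hx, rfl⟩
      have := hKΩ hx
      simpa using this)
    refine ⟨C, fun x hx y hy => ?_⟩
    rw [hder x (hKΩ hx), hder y (hKΩ hy)]
    have e : (iteratedFDeriv ℝ k v (pt t x)).compContinuousLinearMap
          (fun _ => (inj n).toContinuousLinearMap) -
        (iteratedFDeriv ℝ k v (pt t y)).compContinuousLinearMap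
          (fun _ => (inj n).toContinuousLinearMap) =
        (iteratedFDeriv ℝ k v (pt t x) - iteratedFDeriv ℝ k v (pt t y)).compContinuousLinearMap
          (fun _ => (inj n).toContinuousLinearMap) := by
      ext m
      simp
    rw [e]
    refine (ContinuousMultilinearMap.norm_compContinuousLinearMap_le _ _).trans ?_
    have hprod : ∏ _i : Fin k, ‖(inj n).toContinuousLinearMap‖ ≤ 1 := by
      refine Finset.prod_le_one (fun _ _ => norm_nonneg _) (fun _ _ => ?_)
      exact (inj n).norm_toContinuousLinearMap_le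
    have := hC (pt t x) ⟨x, hx, rfl⟩ (pt t y) ⟨y, hy, rfl⟩
    rw [norm_pt_sub] at this
    refine le_trans ?_ this
    exact mul_le_of_le_one_right (norm_nonneg _) hprod

/-- The degree of regularity does not increase with the dimension. -/
theorem gamma_succ_le (hp : 1 < p) : gammaReg (n + 1) p ≤ gammaReg n p := by
  unfold gammaReg
  refine iSup₂_le ?_
  rintro s ⟨hs0, hs⟩
  refine le_iSup₂_of_le (f := fun (s : ℝ) _ => ENNReal.ofReal s) s ⟨hs0, ?_⟩ le_rfl
  intro Ω u hΩ hu
  exact regLoc_of_lift hΩ (hs _ _ (hΩ.preimage (prj n).continuous) (isPHarmonic_lift hΩ hp hu))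

theorem gamma_anti (hp : 1 < p) {m : ℕ} (h : n ≤ m) : gammaReg m p ≤ gammaReg n p := by
  induction m, h using Nat.le_induction with
  | base => exact le_rfl
  | succ m _ ih => exact (gamma_succ_le hp).trans ih

end Pool.Agent.Y310.PR
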