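import Pool.Agent.Y310.PR.CInt
import Pool.Agent.Y310.PR.Mono
import Pool.Agent.Helper749.ConeFinal

set_option autoImplicit false

namespace Pool.Agent.Y310.PR.Fin

open Set Filter Topology MeasureTheory
open Pool.Agent.Helper749.PReg Pool.Agent.Y310.PR.CGeo Pool.Agent.Y310.PR.CSol
open Pool.Agent.Y310.PR.CInt
open Pool.Agent.Helper749.ConeFinal (not_contDiff)
open scoped ContDiff ENNReal

/-- `c |s|^k` with `2 < k` does not have a second derivative which is Hölder continuous at `0`
with an exponent larger than `k - 2`. -/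
lemma not_holder {c k α C : ℝ} (hc : 0 < c) (hk2 : 2 < k) (hα : k - 2 < α)
    (h : ContDiff ℝ 2 (fun s : ℝ => c * |s| ^ k))
    (hb : ∀ s : ℝ, 0 < s → s ≤ 1 → |deriv (deriv (fun s : ℝ => c * |s| ^ k)) s
      - deriv (deriv (fun s : ℝ => c * |s| ^ k)) 0| ≤ C * s ^ α) : False := by
  set g : ℝ → ℝ := fun s => c * |s| ^ k with hg
  have h2 : ContDiff ℝ 1 (deriv g) := by
    have : ContDiff ℝ (1 + 1) g := by
      norm_num
      exact h
    exact (contDiff_succ_iff_deriv.mp this).2.2
  have hcont : Continuous (deriv (deriv g)) := h2.continuous_deriv le_rfl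
  have hpos1 : ∀ x, 0 < x → deriv g x = c * (k * x ^ (k - 1)) := by
    intro x hx
    have e : g =ᶠ[𝓝 x] fun y => c * y ^ k := by
      filter_upwards [Ioi_mem_nhds hx] with y hy
      have hy' : 0 < y := hy
      simp only [hg]
      rw [abs_of_pos hy']
    rw [e.deriv_eq]
    have := ((Real.hasDerivAt_rpow_const (x := x) (p := k) (Or.inl hx.ne')).const_mul c).deriv
    simpa using this
  have hpos2 : ∀ x, 0 < x → deriv (deriv g) x = c * k * (k - 1) * x ^ (k - 2) := by
    intro x hx
    have e : deriv g =ᶠ[𝓝 x] fun y => c * (k * y ^ (k - 1)) := by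
      filter_upwards [Ioi_mem_nhds hx] with y hy
      exact hpos1 y hy
    rw [e.deriv_eq]
    have := (((Real.hasDerivAt_rpow_const (x := x) (p := k - 1) (Or.inl hx.ne')).const_mul
      k).const_mul c).deriv
    rw [this]
    rw [show k - 1 - 1 = k - 2 by ring]
    ring
  have hz : deriv (deriv g) 0 = 0 := by
    have t1 : Tendsto (deriv (deriv g)) (𝓝[>] 0) (𝓝 (deriv (deriv g) 0)) :=
      (hcont.tendsto 0).mono_left nhdsWithin_le_nhds
    have t2 : Tendsto (fun x : ℝ => c * k * (k - 1) * x ^ (k - 2)) (𝓝[>] 0)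
        (𝓝 (c * k * (k - 1) * 0 ^ (k - 2))) := by
      have : ContinuousAt (fun x : ℝ => c * k * (k - 1) * x ^ (k - 2)) 0 :=
        continuousAt_const.mul (Real.continuousAt_rpow_const _ _ (Or.inr (by linarith)))
      exact this.tendsto.mono_left nhdsWithin_le_nhds
    rw [Real.zero_rpow (by linarith), mul_zero] at t2
    refine tendsto_nhds_unique t1 (t2.congr' ?_)
    filter_upwards [self_mem_nhdsWithin] with x hx
    exact (hpos2 x hx).symm
  have hD : 0 < c * k * (k - 1) := by
    have : 0 < k - 1 := by linarith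
    have : 0 < k := by linarith
    positivity
  -- divide by the power
  have key : ∀ s : ℝ, 0 < s → s ≤ 1 → c * k * (k - 1) ≤ C * s ^ (α - (k - 2)) := by
    intro s hs hs1
    have h3 := hb s hs hs1
    rw [hz, sub_zero, hpos2 s hs] at h3
    have hp : 0 < s ^ (k - 2) := Real.rpow_pos_of_pos hs _
    have h4 := (le_abs_self _).trans h3
    have e : s ^ α = s ^ (α - (k - 2)) * s ^ (k - 2) := by
      rw [← Real.rpow_add hs]
      congr 1
      ring
    rw [e, ← mul_assoc] at h4
    exact le_of_mul_le_mul_right h4 hp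
  have hlim : Tendsto (fun s : ℝ => C * s ^ (α - (k - 2))) (𝓝[>] 0) (𝓝 (C * 0 ^ (α - (k - 2)))) := by
    have : ContinuousAt (fun x : ℝ => C * x ^ (α - (k - 2))) 0 :=
      continuousAt_const.mul (Real.continuousAt_rpow_const _ _ (Or.inr (by linarith)))
    exact this.tendsto.mono_left nhdsWithin_le_nhds
  rw [Real.zero_rpow (by linarith), mul_zero] at hlim
  have : c * k * (k - 1) ≤ 0 := by
    apply ge_of_tendsto hlim
    filter_upwards [Ioo_mem_nhdsGT (show (0:ℝ) < 1 by norm_num)] with x hx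
    exact key x hx.1 hx.2.le
  linarith

variable {m : ℕ} {K μ : ℝ} (Pr : Prof m K μ)

/-- The solution is not better than `C^K`. -/
theorem not_reg (hK2 : 2 < K) {s : ℝ} (hs : K < s) : ¬ RegLoc s univ (uu Pr) := by
  rintro ⟨j, α, hα0, hα1, hsm, v, hv1, hv2, hv3⟩
  have hm : 0 < m := by have := Pr.hm4; omega
  have hk2 := Pr.hk2
  have hkK := Pr.hk3
  have hk3 := Pr.hk33
  have hj : 2 ≤ j := by
    have : (1 : ℝ) < j := by linarith
    have : 1 < j := by exact_mod_cast this
    omega
  have hvj : ContDiff ℝ 2 v := by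
    rw [contDiffOn_univ] at hv2
    exact hv2.of_le (by exact_mod_cast hj)
  have heq : uu Pr = v := by
    rw [Measure.restrict_univ] at hv1
    exact (Continuous.ae_eq_iff_eq volume (continuous_uu Pr) hvj.continuous).mp hv1
  set L : ℝ →L[ℝ] E m := ContinuousLinearMap.toSpanSingleton ℝ (EuclideanSpace.single (i0 hm) 1)
    with hL
  have hLs : ∀ s : ℝ, L s = EuclideanSpace.single (i0 hm) s := by
    intro s
    rw [hL, ContinuousLinearMap.toSpanSingleton_apply]
    ext i
    simp
  have e : v ∘ L = fun s : ℝ => Pr.Vp * |s| ^ Pr.k := by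
    ext s
    rw [Function.comp_apply, hLs, ← heq, uu_axis Pr hm]
  have hg2 : ContDiff ℝ 2 (v ∘ L) := hvj.comp L.contDiff
  rcases Nat.lt_or_ge j 3 with hj3 | hj3
  · have hj2 : j = 2 := by omega
    subst hj2
    obtain ⟨C, hC⟩ := hv3 (Metric.closedBall 0 1) (isCompact_closedBall _ _) (subset_univ _)
    have hne : ∀ s : ℝ, ‖L s‖ = |s| := by
      intro s
      rw [hLs]
      simp
    have hα : Pr.k - 2 < α := by
      push_cast at hsm
      linarith
    have hder : ∀ s : ℝ, deriv (deriv (v ∘ L)) s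
        = iteratedFDeriv ℝ 2 v (L s) (fun _ => L 1) := by
      intro s
      have h1 : deriv (deriv (v ∘ L)) s = iteratedDeriv 2 (v ∘ L) s := by
        rw [iteratedDeriv_succ, iteratedDeriv_one]
      rw [h1, iteratedDeriv_eq_iteratedFDeriv, L.iteratedFDeriv_comp_right hvj s le_rfl]
      rfl
    rw [e] at hg2
    refine not_holder (α := α) (C := C) Pr.hVp hk2 hα hg2 ?_
    intro s hs0 hs1
    rw [← e, hder, hder]
    have hm1 : L s ∈ Metric.closedBall (0 : E m) 1 := by
      rw [mem_closedBall_zero_iff, hne, abs_of_pos hs0]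
      exact hs1
    have hm0 : L 0 ∈ Metric.closedBall (0 : E m) 1 := by
      rw [map_zero]
      exact Metric.mem_closedBall_self (by norm_num)
    have h4 := hC (L s) hm1 (L 0) hm0
    have h5 : ‖L s - L 0‖ = s := by
      rw [← map_sub, sub_zero, hne, abs_of_pos hs0]
    rw [h5] at h4
    refine le_trans ?_ h4
    have h6 := (iteratedFDeriv ℝ 2 v (L s) - iteratedFDeriv ℝ 2 v (L 0)).le_opNorm
      (fun _ => L 1)
    have h7 : ∏ _i : Fin 2, ‖L 1‖ = 1 := by
      rw [hne]
      simp
    rw [h7, mul_one] at h6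
    exact h6
  · have hv3' : ContDiff ℝ 3 v := by
      rw [contDiffOn_univ] at hv2
      exact hv2.of_le (by exact_mod_cast hj3)
    have h4 : ContDiff ℝ 3 (v ∘ L) := hv3'.comp L.contDiff
    rw [e] at h4
    exact not_contDiff Pr.hVp hk2 hk3 h4

theorem gamma_le (hm : 4 ≤ m) (hK2 : 2 < K) (hK3 : K ≤ 3)
    {p : ℝ} (h1 : 1 < p) (h2 : p < 2) (hK : Ode.k2 K ((m : ℝ) - 1) (p - 1) ≤ 0) :
    gammaReg (m + m) p ≤ ENNReal.ofReal K := by
  obtain ⟨Pr⟩ := exists_prof (μ := p - 1) hm (by linarith) (by linarith) hK2 hK3 hK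
  unfold gammaReg
  refine iSup₂_le ?_
  rintro s ⟨hs0, hs⟩
  by_contra hcon
  have hs3 : K < s := by
    by_contra h3
    apply hcon
    push Not at h3
    exact ENNReal.ofReal_le_ofReal h3
  have hu := isPHarmonic_uu Pr
  rw [show 1 + (p - 1) = p by ring] at hu
  exact not_reg Pr hK2 hs3 (hs univ (uu Pr) isOpen_univ hu)

end Pool.Agent.Y310.PR.Fin
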