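import Pool.Agent.Y310.PR.Fin

set_option autoImplicit false

namespace Pool.Agent.Y310.PR

open Filter Topology
open Pool.Agent.Helper749.PReg
open scoped ENNReal

/-- The explicit degree
`κ(m,p) = 8(m+p-2) / (2m-p+√((2m-p)² - 16(3-2p)(m+p-2)))`, a root of
`(3-2p)κ² - (2m-p)κ + 4(m+p-2)`. -/
noncomputable def kappa (m : ℕ) (p : ℝ) : ℝ :=
  8 * (m + p - 2) /
    (2 * m - p + Real.sqrt ((2 * m - p) ^ 2 - 16 * (3 - 2 * p) * (m + p - 2)))

/-- The quadratic polynomial. -/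
noncomputable def qua (m : ℕ) (p K : ℝ) : ℝ :=
  (3 - 2 * p) * K ^ 2 - (2 * m - p) * K + 4 * (m + p - 2)

lemma k2_eq (m : ℕ) (p K : ℝ) : Ode.k2 K ((m : ℝ) - 1) (p - 1) = qua m p K := by
  unfold Ode.k2 qua
  ring

lemma disc_ge {m : ℕ} (hm : 4 ≤ m) {p K : ℝ} (h1 : 1 < p) (hK0 : 0 < K)
    (hK : qua m p K ≤ 0) : (8 * (m + p - 2) / K - (2 * m - p)) ^ 2 ≤
      (2 * m - p) ^ 2 - 16 * (3 - 2 * p) * (m + p - 2) := by
  have hm' : (4 : ℝ) ≤ m := by exact_mod_cast hm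
  have hC : 0 < (m : ℝ) + p - 2 := by linarith
  have e : (2 * m - p) ^ 2 - 16 * (3 - 2 * p) * (m + p - 2)
      - (8 * (m + p - 2) / K - (2 * m - p)) ^ 2 = -(16 * (m + p - 2) * qua m p K) / K ^ 2 := by
    unfold qua
    field_simp
    ring
  have h2 : 0 ≤ -(16 * (m + p - 2) * qua m p K) / K ^ 2 := by
    apply div_nonneg _ (sq_nonneg K)
    have : 16 * ((m : ℝ) + p - 2) * qua m p K ≤ 0 :=
      mul_nonpos_of_nonneg_of_nonpos (by linarith) hK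
    linarith
  linarith

lemma kappa_le {m : ℕ} (hm : 4 ≤ m) {p K : ℝ} (h1 : 1 < p) (h2 : p < 2) (hK0 : 0 < K)
    (hK : qua m p K ≤ 0) : kappa m p ≤ K := by
  have hm' : (4 : ℝ) ≤ m := by exact_mod_cast hm
  have hd := Real.le_sqrt_of_sq_le (disc_ge hm h1 hK0 hK)
  have hs := Real.sqrt_nonneg ((2 * m - p) ^ 2 - 16 * (3 - 2 * p) * (m + p - 2))
  unfold kappa
  rw [div_le_iff₀ (by linarith)]
  have h3 : 8 * (m + p - 2) / K ≤ 2 * m - p
      + Real.sqrt ((2 * m - p) ^ 2 - 16 * (3 - 2 * p) * (m + p - 2)) := by linarith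
  rw [div_le_iff₀ hK0] at h3
  linarith

lemma qua_three {m : ℕ} (hm : 4 ≤ m) {p : ℝ} (h1 : 1 < p) : qua m p 3 ≤ 0 := by
  have hm' : (4 : ℝ) ≤ m := by exact_mod_cast hm
  unfold qua
  nlinarith

lemma two_lt_kappa {m : ℕ} (hm : 4 ≤ m) {p : ℝ} (h1 : 1 < p) (h2 : p < 2) : 2 < kappa m p := by
  have hm' : (4 : ℝ) ≤ m := by exact_mod_cast hm
  have hs := Real.sqrt_nonneg ((2 * m - p) ^ 2 - 16 * (3 - 2 * p) * (m + p - 2))
  unfold kappa
  rw [lt_div_iff₀ (by linarith)]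
  have h3 : Real.sqrt ((2 * m - p) ^ 2 - 16 * (3 - 2 * p) * (m + p - 2)) < 2 * m + 5 * p - 8 := by
    rw [Real.sqrt_lt' (by linarith)]
    have e : (2 * (m : ℝ) + 5 * p - 8) ^ 2 - ((2 * m - p) ^ 2 - 16 * (3 - 2 * p) * (m + p - 2))
        = 8 * ((m + p - 2) * (2 - p)) := by
      ring
    have : 0 < ((m : ℝ) + p - 2) * (2 - p) := mul_pos (by linarith) (by linarith)
    linarith
  linarith

lemma qua_kappa {m : ℕ} (hm : 4 ≤ m) {p : ℝ} (h1 : 1 < p) (h2 : p < 2) :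
    qua m p (kappa m p) = 0 := by
  have hm' : (4 : ℝ) ≤ m := by exact_mod_cast hm
  have hd : 0 ≤ (2 * m - p) ^ 2 - 16 * (3 - 2 * p) * (m + p - 2) :=
    (sq_nonneg _).trans (disc_ge hm h1 (by norm_num : (0:ℝ) < 3) (qua_three hm h1))
  have hs := Real.sqrt_nonneg ((2 * m - p) ^ 2 - 16 * (3 - 2 * p) * (m + p - 2))
  have hq := Real.sq_sqrt hd
  unfold qua kappa
  set S := Real.sqrt ((2 * m - p) ^ 2 - 16 * (3 - 2 * p) * (m + p - 2)) with hS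
  have hne : 2 * (m : ℝ) - p + S ≠ 0 := by
    have : 0 < 2 * (m : ℝ) - p + S := by linarith
    exact this.ne'
  field_simp
  linear_combination (4 * ((m : ℝ) + p - 2)) * hq

lemma kappa_bound {m : ℕ} (hm : 4 ≤ m) {p : ℝ} (h1 : 1 < p) (h2 : p < 2) :
    kappa m p ≤ 2 + (2 - p) / ((m : ℝ) - 3) := by
  have hm' : (4 : ℝ) ≤ m := by exact_mod_cast hm
  have hδ : 0 < (2 - p) / ((m : ℝ) - 3) := by
    apply div_pos <;> linarith
  set δ := (2 - p) / ((m : ℝ) - 3) with hδd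
  have hm3 : (m : ℝ) - 3 ≠ 0 := by
    have : 0 < (m : ℝ) - 3 := by linarith
    exact this.ne'
  have hmd : (m : ℝ) * δ = (2 - p) + 3 * δ := by
    have : ((m : ℝ) - 3) * δ = 2 - p := by
      rw [hδd]
      field_simp
    linarith
  have hδ1 : δ ≤ 1 := by
    rw [hδd, div_le_one (by linarith)]
    linarith
  refine kappa_le hm h1 h2 (by linarith) ?_
  have e : qua m p (2 + δ) = -(δ * (1 + 7 * (p - 1) - (3 - 2 * p) * δ))
      + 2 * ((2 - p) + 3 * δ - m * δ) := by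
    unfold qua
    ring
  rw [e, hmd]
  have h3 : 0 ≤ 1 + 7 * (p - 1) - (3 - 2 * p) * δ := by
    nlinarith [mul_pos (sub_pos.mpr h1) hδ]
  have := mul_nonneg hδ.le h3
  linarith

theorem gamma_le_kappa {n : ℕ} (hn : 8 ≤ n) {p : ℝ} (h1 : 1 < p) (h2 : p < 2) :
    gammaReg n p ≤ ENNReal.ofReal (kappa (n / 2) p) := by
  have hm : 4 ≤ n / 2 := by omega
  refine (gamma_anti h1 (show n / 2 + n / 2 ≤ n by omega)).trans ?_
  refine Fin.gamma_le hm (two_lt_kappa hm h1 h2) (kappa_le hm h1 h2 (by norm_num)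
    (qua_three hm h1)) h1 h2 ?_
  rw [k2_eq, qua_kappa hm h1 h2]

theorem gamma_le_three {n : ℕ} (hn : 8 ≤ n) {p : ℝ} (h1 : 1 < p) (h2 : p < 2) :
    gammaReg n p ≤ 3 := by
  have hm : 4 ≤ n / 2 := by omega
  refine (gamma_le_kappa hn h1 h2).trans ?_
  calc ENNReal.ofReal (kappa (n / 2) p) ≤ ENNReal.ofReal 3 :=
        ENNReal.ofReal_le_ofReal (kappa_le hm h1 h2 (by norm_num) (qua_three hm h1))
    _ = 3 := by norm_num

theorem not_tendsto {n : ℕ} (hn : 8 ≤ n) :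
    ¬ Tendsto (fun p => gammaReg n p) (𝓝[>] 1) (𝓝 ⊤) := by
  intro h
  have h3 : ∀ᶠ p in 𝓝[>] (1:ℝ), 3 < gammaReg n p := h.eventually (lt_mem_nhds (by norm_num))
  have h4 : ∀ᶠ p in 𝓝[>] (1:ℝ), p ∈ Set.Ioo (1:ℝ) 2 := Ioo_mem_nhdsGT (by norm_num)
  obtain ⟨p, hp1, hp2⟩ := (h3.and h4).exists
  exact absurd (gamma_le_three hn hp2.1 hp2.2) (not_le.mpr hp1)

end Pool.Agent.Y310.PR
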