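import Pool.Agent.Helper749.ConeFun

set_option autoImplicit false

namespace Pool.Agent.Y310.PR.Ode

open Set Filter Topology NNReal Metric
open Pool.Agent.Helper749.ConeOde (exists_global comparison DD DD_lower DD_upper DD_pos abs_tanh_le
  sc_bound cosh_half hasDerivAt_DD bar bar' hasDerivAt_bar den_pos bar_pos bar_zero bar_mono)

/-- The numerator. -/
noncomputable def NN (a μ k t x : ℝ) : ℝ :=
  a * Real.tanh t * (Real.sin x * Real.cos x)
    - (μ * k + (2 * a + 1 - μ) * Real.cos x ^ 2) / (2 * Real.cosh t)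

/-- The field. -/
noncomputable def HH (a μ k t x : ℝ) : ℝ := NN a μ k t x / DD μ x

lemma NN_bound {a μ k : ℝ} (ha : 3 ≤ a) (h0 : 0 < μ) (h1 : μ < 1) (hk0 : 0 ≤ k) (hk3 : k ≤ 3)
    (t x : ℝ) : |NN a μ k t x| ≤ 5 * a := by
  unfold NN
  have a1 : |a * Real.tanh t * (Real.sin x * Real.cos x)| ≤ a := by
    rw [abs_mul, abs_mul, abs_of_pos (by linarith : (0:ℝ) < a)]
    have h3 := abs_tanh_le t
    have h4 := sc_bound x
    have h5 : |Real.tanh t| * |Real.sin x * Real.cos x| ≤ 1 * (1 / 2) :=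
      mul_le_mul h3 h4 (abs_nonneg _) (by norm_num)
    calc a * |Real.tanh t| * |Real.sin x * Real.cos x|
        = a * (|Real.tanh t| * |Real.sin x * Real.cos x|) := by ring
      _ ≤ a * (1 * (1 / 2)) := mul_le_mul_of_nonneg_left h5 (by linarith)
      _ ≤ a := by linarith
  have a2 : |(μ * k + (2 * a + 1 - μ) * Real.cos x ^ 2) / (2 * Real.cosh t)| ≤ 2 * a + 3 := by
    apply cosh_half
    have hcs : Real.cos x ^ 2 ≤ 1 := Real.cos_sq_le_one x
    have hcs0 : 0 ≤ Real.cos x ^ 2 := sq_nonneg _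
    have e1 : 0 ≤ (2 * a + 1 - μ) * Real.cos x ^ 2 := mul_nonneg (by linarith) hcs0
    have e2 : (2 * a + 1 - μ) * Real.cos x ^ 2 ≤ (2 * a + 1 - μ) * 1 :=
      mul_le_mul_of_nonneg_left hcs (by linarith)
    have e3 : 0 ≤ μ * k := mul_nonneg h0.le hk0
    have e4 : μ * k ≤ μ * 3 := mul_le_mul_of_nonneg_left hk3 h0.le
    rw [abs_le]
    constructor <;> nlinarith
  refine (abs_sub _ _).trans ?_
  linarith

lemma HH_bound {a μ k : ℝ} (ha : 3 ≤ a) (h0 : 0 < μ) (h1 : μ < 1) (hk0 : 0 ≤ k) (hk3 : k ≤ 3)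
    (t x : ℝ) : |HH a μ k t x| ≤ 5 * a / μ := by
  unfold HH
  rw [abs_div, abs_of_pos (DD_pos h0 h1 x)]
  exact div_le_div₀ (by linarith) (NN_bound ha h0 h1 hk0 hk3 t x) h0 (DD_lower h1 x)

lemma HH_diff {a μ k k' : ℝ} (h0 : 0 < μ) (h1 : μ < 1) (t x : ℝ) :
    |HH a μ k t x - HH a μ k' t x| ≤ |k - k'| := by
  have hD := DD_pos h0 h1 x
  have hc := Real.one_le_cosh t
  have e : HH a μ k t x - HH a μ k' t x
      = -(k - k') * (μ / DD μ x) * (1 / (2 * Real.cosh t)) := by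
    unfold HH NN
    field_simp
    ring
  rw [e, abs_mul, abs_mul, abs_neg]
  have b1 : |μ / DD μ x| ≤ 1 := by
    rw [abs_div, abs_of_pos h0, abs_of_pos hD, div_le_one hD]
    exact DD_lower h1 x
  have b2 : |1 / (2 * Real.cosh t)| ≤ 1 := cosh_half t (by norm_num)
  calc |k - k'| * |μ / DD μ x| * |1 / (2 * Real.cosh t)| ≤ |k - k'| * 1 * 1 := by gcongr
    _ = |k - k'| := by ring

lemma hasDerivAt_NN (a μ k t x : ℝ) :
    HasDerivAt (NN a μ k t) (a * Real.tanh t * (Real.cos x ^ 2 - Real.sin x ^ 2)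
      - (-2 * (2 * a + 1 - μ) * (Real.sin x * Real.cos x)) / (2 * Real.cosh t)) x := by
  have h1 := ((Real.hasDerivAt_sin x).mul (Real.hasDerivAt_cos x)).const_mul (a * Real.tanh t)
  have h2 := ((((Real.hasDerivAt_cos x).pow 2).const_mul (2 * a + 1 - μ)).const_add
    (μ * k)).div_const (2 * Real.cosh t)
  refine (h1.sub h2).congr_deriv ?_
  simp
  ring

lemma HH_lipschitz {a μ k : ℝ} (ha : 3 ≤ a) (h0 : 0 < μ) (h1 : μ < 1) (hk0 : 0 ≤ k) (hk3 : k ≤ 3)
    (t : ℝ) : LipschitzWith (Real.toNNReal (20 * a / μ ^ 2)) (HH a μ k t) := by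
  have hd : ∀ x, HasDerivAt (HH a μ k t)
      (((a * Real.tanh t * (Real.cos x ^ 2 - Real.sin x ^ 2)
      - (-2 * (2 * a + 1 - μ) * (Real.sin x * Real.cos x)) / (2 * Real.cosh t)) * DD μ x
        - NN a μ k t x * (-2 * (1 - μ) * (Real.sin x * Real.cos x))) / (DD μ x) ^ 2) x :=
    fun x => (hasDerivAt_NN a μ k t x).div (hasDerivAt_DD μ x) (DD_pos h0 h1 x).ne'
  have ha0 : 0 < a := by linarith
  apply lipschitzWith_of_nnnorm_deriv_le (fun x => (hd x).differentiableAt)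
  intro x
  rw [(hd x).deriv]
  rw [← NNReal.coe_le_coe, coe_nnnorm, Real.norm_eq_abs, Real.coe_toNNReal _ (by positivity)]
  have hD := DD_pos h0 h1 x
  have hDl := DD_lower h1 x
  have hDu := DD_upper h1 x
  rw [abs_div, abs_of_pos (by positivity : 0 < (DD μ x) ^ 2)]
  apply div_le_div₀ (by positivity) _ (by positivity) (pow_le_pow_left₀ h0.le hDl 2)
  have hsc := sc_bound x
  have a1 : |a * Real.tanh t * (Real.cos x ^ 2 - Real.sin x ^ 2)| ≤ a := by
    rw [abs_mul, abs_mul, abs_of_pos ha0]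
    have h3 := abs_tanh_le t
    have h4 : |Real.cos x ^ 2 - Real.sin x ^ 2| ≤ 1 := by
      rw [abs_le]
      constructor <;>
        nlinarith [Real.sin_sq_add_cos_sq x, sq_nonneg (Real.sin x), sq_nonneg (Real.cos x)]
    have h5 : |Real.tanh t| * |Real.cos x ^ 2 - Real.sin x ^ 2| ≤ 1 * 1 :=
      mul_le_mul h3 h4 (abs_nonneg _) (by norm_num)
    calc a * |Real.tanh t| * |Real.cos x ^ 2 - Real.sin x ^ 2|
        = a * (|Real.tanh t| * |Real.cos x ^ 2 - Real.sin x ^ 2|) := by ring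
      _ ≤ a * (1 * 1) := mul_le_mul_of_nonneg_left h5 ha0.le
      _ = a := by ring
  have a2 : |(-2 * (2 * a + 1 - μ) * (Real.sin x * Real.cos x)) / (2 * Real.cosh t)|
      ≤ 2 * a + 1 := by
    apply cosh_half
    rw [abs_mul, abs_mul]
    have h6 : |2 * a + 1 - μ| ≤ 2 * a + 1 := by rw [abs_of_pos (by linarith)]; linarith
    have h2 : |(-2 : ℝ)| = 2 := by norm_num
    rw [h2]
    have h7 : |2 * a + 1 - μ| * |Real.sin x * Real.cos x| ≤ (2 * a + 1) * (1 / 2) :=
      mul_le_mul h6 hsc (abs_nonneg _) (by linarith)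
    nlinarith
  have a3 : |a * Real.tanh t * (Real.cos x ^ 2 - Real.sin x ^ 2)
      - (-2 * (2 * a + 1 - μ) * (Real.sin x * Real.cos x)) / (2 * Real.cosh t)| ≤ 3 * a + 1 :=
    (abs_sub _ _).trans (by linarith)
  have a4 : |(-2 * (1 - μ) * (Real.sin x * Real.cos x))| ≤ 1 := by
    rw [abs_mul, abs_mul]
    have : |1 - μ| ≤ 1 := by rw [abs_of_pos (by linarith)]; linarith
    have h2 : |(-2 : ℝ)| = 2 := by norm_num
    rw [h2]
    nlinarith [abs_nonneg (Real.sin x * Real.cos x), abs_nonneg (1 - μ)]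
  have a5 := NN_bound ha h0 h1 hk0 hk3 t x
  have a6 : |(a * Real.tanh t * (Real.cos x ^ 2 - Real.sin x ^ 2)
      - (-2 * (2 * a + 1 - μ) * (Real.sin x * Real.cos x)) / (2 * Real.cosh t)) * DD μ x|
      ≤ (3 * a + 1) * 1 := by
    rw [abs_mul, abs_of_pos hD]
    exact mul_le_mul a3 hDu hD.le (by linarith)
  have a7 : |NN a μ k t x * (-2 * (1 - μ) * (Real.sin x * Real.cos x))| ≤ 5 * a * 1 := by
    rw [abs_mul]
    exact mul_le_mul a5 a4 (abs_nonneg _) (by linarith)
  exact (abs_sub _ _).trans (by linarith)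

lemma HH_continuous (a μ k x : ℝ) : Continuous fun t => HH a μ k t x := by
  unfold HH NN
  have h1 : Continuous Real.tanh := by
    have : Real.tanh = fun t => Real.sinh t / Real.cosh t := by
      ext t
      exact Real.tanh_eq_sinh_div_cosh t
    rw [this]
    exact Real.continuous_sinh.div Real.continuous_cosh (fun t => (Real.cosh_pos t).ne')
  refine Continuous.div_const ?_ _
  refine ((continuous_const.mul h1).mul continuous_const).sub ?_
  exact continuous_const.div (continuous_const.mul Real.continuous_cosh)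
    (fun t => by have := Real.cosh_pos t; positivity)

/-- The comparison polynomial. -/
noncomputable def PP (a μ k l y : ℝ) : ℝ :=
  l * (1 + y) * (2 * a * l * y - μ * k * (1 + y) - (2 * a + 1 - μ) * y)
    + 2 * (1 + l ^ 2 * y) * (y + μ)

lemma HH_bar {a μ k l : ℝ} (h0 : 0 < μ) (hl : 0 < l) (t : ℝ) :
    HH a μ k t (bar l t) - bar' l t
      = PP a μ k l ((Real.sinh t / l) ^ 2)
        / (2 * Real.cosh t * l * ((Real.sinh t / l) ^ 2 + μ) * (1 + (Real.sinh t / l) ^ 2)) := by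
  set s : ℝ := Real.sinh t / l with hs
  have hsl : Real.sinh t = l * s := by
    rw [hs]
    field_simp
  have hc := Real.cosh_pos t
  have hcs : Real.cosh t ^ 2 = 1 + l ^ 2 * s ^ 2 := by
    rw [Real.cosh_sq, hsl]
    ring
  have h1s : 0 < 1 + s ^ 2 := by positivity
  have hsin : Real.sin (bar l t) = Real.cos (Real.arctan s) := by
    unfold bar
    rw [Real.sin_pi_div_two_sub]
  have hcos : Real.cos (bar l t) = Real.sin (Real.arctan s) := by
    unfold bar
    rw [Real.cos_pi_div_two_sub]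
  have e1 : Real.cos (Real.arctan s) ^ 2 = 1 / (1 + s ^ 2) := Real.cos_sq_arctan s
  have e2 : Real.sin (Real.arctan s) ^ 2 = s ^ 2 / (1 + s ^ 2) := by
    have := Real.sin_sq_add_cos_sq (Real.arctan s)
    rw [e1] at this
    field_simp at this ⊢
    linarith
  have e3 : Real.cos (Real.arctan s) * Real.sin (Real.arctan s) = s / (1 + s ^ 2) := by
    rw [Real.cos_arctan, Real.sin_arctan]
    have hq := Real.sq_sqrt h1s.le
    have hq0 : 0 < Real.sqrt (1 + s ^ 2) := Real.sqrt_pos.mpr h1s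
    field_simp
    rw [hq]
  have hμ : 0 < s ^ 2 + μ := by positivity
  unfold HH NN DD bar' PP
  have hls : l * s / l = s := by field_simp
  rw [hsin, hcos, e1, e2, e3, Real.tanh_eq_sinh_div_cosh, hsl, hls]
  have : (s ^ 2 / (1 + s ^ 2) + μ * (1 / (1 + s ^ 2))) = (s ^ 2 + μ) / (1 + s ^ 2) := by
    field_simp
  rw [this]
  field_simp
  rw [hcs]
  ring

lemma PP_eq {a μ k : ℝ} (hk : 0 < k) (y : ℝ) :
    PP a μ k (2 / k) y = (2 / k ^ 2) *
      ((k ^ 2 - (2 * a + 1) * k + 4 * a - μ * (2 * k ^ 2 - k - 4)) * y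
      + (4 * (a + 1) - (2 * a + 1) * k - μ * k * (k - 1)) * y ^ 2) := by
  unfold PP
  field_simp
  ring

lemma bar_sub {a μ : ℝ} (ha : 3 ≤ a) (h0 : 0 < μ) (h1 : μ < 1) (t : ℝ) :
    bar' (2 / (2 + (1 - μ) / (2 * a))) t
      ≤ HH a μ (2 + (1 - μ) / (2 * a)) t (bar (2 / (2 + (1 - μ) / (2 * a))) t) := by
  have ha0 : 0 < a := by linarith
  set ε : ℝ := (1 - μ) / (2 * a) with hε
  have hε0 : 0 < ε := div_pos (by linarith) (by linarith)
  have hεa : 2 * a * ε = 1 - μ := by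
    rw [hε]
    field_simp
  have hε6 : 6 * ε ≤ 1 - μ := by
    rw [← hεa]
    nlinarith
  set k : ℝ := 2 + ε with hk
  have hkpos : 0 < k := by rw [hk]; linarith
  have hl : 0 < 2 / k := by positivity
  have h := HH_bar (a := a) (μ := μ) (k := k) (l := 2 / k) h0 hl t
  have hp : 0 ≤ PP a μ k (2 / k) ((Real.sinh t / (2 / k)) ^ 2) := by
    rw [PP_eq hkpos]
    have f2 : 0 ≤ k ^ 2 - (2 * a + 1) * k + 4 * a - μ * (2 * k ^ 2 - k - 4) := by
      have e : k ^ 2 - (2 * a + 1) * k + 4 * a - μ * (2 * k ^ 2 - k - 4)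
          = 2 * (1 - μ) - 2 * a * ε + 3 * ε - 7 * μ * ε + (1 - 2 * μ) * ε ^ 2 := by
        rw [hk]
        ring
      rw [e, hεa]
      nlinarith [mul_pos h0 hε0, mul_pos hε0 hε0, mul_pos h0 (mul_pos hε0 hε0)]
    have f1 : 0 ≤ 4 * (a + 1) - (2 * a + 1) * k - μ * k * (k - 1) := by
      have e : 4 * (a + 1) - (2 * a + 1) * k - μ * k * (k - 1)
          = 2 * (1 - μ) - 2 * a * ε - ε - 3 * μ * ε - μ * ε ^ 2 := by
        rw [hk]
        ring
      rw [e, hεa]
      nlinarith [mul_pos h0 hε0, mul_pos hε0 hε0, mul_pos h0 (mul_pos hε0 hε0)]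
    positivity
  have := div_nonneg hp (den_pos (μ := μ) (l := 2 / k) (t := t) h0 hl).le
  linarith

/-- First coefficient. -/
noncomputable def k2 (K a μ : ℝ) : ℝ :=
  K ^ 2 - (2 * a + 1) * K + 4 * a - μ * (2 * K ^ 2 - K - 4)

/-- Second coefficient. -/
noncomputable def k1 (K a μ : ℝ) : ℝ := 4 * (a + 1) - (2 * a + 1) * K - μ * K * (K - 1)

lemma k1_le {K a μ : ℝ} (h1 : μ < 1) (hK2 : 2 ≤ K) (hK : k2 K a μ ≤ 0) : k1 K a μ ≤ 0 := by
  have e : k1 K a μ = k2 K a μ - (1 - μ) * (K ^ 2 - 4) := by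
    unfold k1 k2
    ring
  have : 0 ≤ (1 - μ) * (K ^ 2 - 4) := mul_nonneg (by linarith) (by nlinarith)
  linarith

lemma bar_super {a μ K : ℝ} (h0 : 0 < μ) (h1 : μ < 1) (hK2 : 2 ≤ K)
    (hK : k2 K a μ ≤ 0) (t : ℝ) :
    HH a μ K t (bar (2 / K) t) ≤ bar' (2 / K) t := by
  have hK0 : 0 < K := by linarith
  have hl : 0 < 2 / K := by positivity
  have h := HH_bar (a := a) (μ := μ) (k := K) (l := 2 / K) h0 hl t
  have hp : PP a μ K (2 / K) ((Real.sinh t / (2 / K)) ^ 2) ≤ 0 := by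
    rw [PP_eq hK0]
    have hy : 0 ≤ (Real.sinh t / (2 / K)) ^ 2 := sq_nonneg _
    have g1 : k2 K a μ ≤ 0 := hK
    have g2 : k1 K a μ ≤ 0 := k1_le h1 hK2 hK
    unfold k2 at g1
    unfold k1 at g2
    have g3 := mul_nonpos_of_nonpos_of_nonneg g1 hy
    have g4 := mul_nonpos_of_nonpos_of_nonneg g2
      (sq_nonneg ((Real.sinh t / (2 / K)) ^ 2))
    exact mul_nonpos_of_nonneg_of_nonpos (by positivity) (by linarith)
  have := div_nonpos_of_nonpos_of_nonneg hp (den_pos (μ := μ) (l := 2 / K) (t := t) h0 hl).le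
  linarith

lemma bar_large {a μ k t : ℝ} (ha : 3 ≤ a) (h0 : 0 < μ) (h1 : μ < 1) (hk0 : 0 ≤ k)
    (hk3 : k ≤ 3) (ht : 2 ≤ t) : bar' 2 t ≤ HH a μ k t (bar 2 t) := by
  have h := HH_bar (a := a) (μ := μ) (k := k) (l := 2) h0 (by norm_num) t
  have hs : 2 ≤ Real.sinh t := le_trans ht (Real.self_le_sinh_iff.mpr (by linarith))
  have hy : 1 ≤ (Real.sinh t / 2) ^ 2 := by
    have : 1 ≤ Real.sinh t / 2 := by linarith
    nlinarith
  set y := (Real.sinh t / 2) ^ 2
  have hp : 0 ≤ PP a μ k 2 y := by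
    have e : PP a μ k 2 y = -2 * μ * (k - 1) + y * (4 * a - 4 * μ * k + 10 * μ)
        + y ^ 2 * (4 * a + 6 - 2 * μ * k + 2 * μ) := by
      unfold PP
      ring
    rw [e]
    have a1 : 0 ≤ μ * (3 - k) := mul_nonneg h0.le (by linarith)
    have a2 : 0 ≤ μ * k := mul_nonneg h0.le hk0
    have b1 : 0 ≤ 4 * a - 4 * μ * k + 10 * μ := by nlinarith
    have b2 : 12 ≤ 4 * a + 6 - 2 * μ * k + 2 * μ := by nlinarith
    have c1 : 0 ≤ y * (4 * a - 4 * μ * k + 10 * μ) := mul_nonneg (by linarith) b1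
    have c2 : 12 ≤ y ^ 2 * (4 * a + 6 - 2 * μ * k + 2 * μ) := by nlinarith
    nlinarith
  have := div_nonneg hp (den_pos (μ := μ) (l := 2) (t := t) h0 (by norm_num)).le
  linarith

/-- Existence of the profile of the homogeneous solution. -/
theorem exists_profile {a μ K : ℝ} (ha : 3 ≤ a) (h0 : 0 < μ) (h1 : μ < 1) (hK2 : 2 < K)
    (hK3 : K ≤ 3) (hK : k2 K a μ ≤ 0) :
    ∃ (k : ℝ) (P : ℝ → ℝ), 2 < k ∧ k ≤ K ∧ P 0 = Real.pi / 2 ∧
      (∀ t, HasDerivAt P (HH a μ k t (P t)) t) ∧ (∀ t, 0 ≤ t → 0 < P t) ∧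
      (∀ t, 2 ≤ t → P t ≤ bar 2 t) := by
  have sol : ∀ k : ℝ, 0 ≤ k → k ≤ 3 → ∃ α : ℝ → ℝ, α 0 = Real.pi / 2 ∧
      ∀ t, HasDerivAt α (HH a μ k t (α t)) t := by
    intro k hk0 hk3
    refine exists_global (HH a μ k) (HH_continuous a μ k) (Real.toNNReal (20 * a / μ ^ 2))
      (Real.toNNReal (5 * a / μ)) (HH_lipschitz ha h0 h1 hk0 hk3) ?_ _
    intro t x
    rw [Real.coe_toNNReal _ (by positivity)]
    exact HH_bound ha h0 h1 hk0 hk3 t x
  choose! Ψ hΨ0 hΨ using sol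
  set k1 : ℝ := 2 + (1 - μ) / (2 * a) with hk1
  have ha0 : 0 < a := by linarith
  have hk1a : 2 < k1 := by
    have : 0 < (1 - μ) / (2 * a) := div_pos (by linarith) (by linarith)
    rw [hk1]
    linarith
  have hk1b : k1 < K := by
    by_contra hcon
    push Not at hcon
    have e1 : 2 * a * (K - 2) ≤ 1 - μ := by
      have : K - 2 ≤ (1 - μ) / (2 * a) := by rw [hk1] at hcon; linarith
      rw [le_div_iff₀ (by linarith)] at this
      linarith
    set δ : ℝ := K - 2 with hδ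
    have hδ0 : 0 < δ := by linarith
    have e2 : 6 * δ ≤ 1 - μ := by nlinarith
    have e3 : k2 K a μ = 2 * (1 - μ) - 2 * a * δ + 3 * δ - 7 * μ * δ + (1 - 2 * μ) * δ ^ 2 := by
      unfold k2
      rw [show K = 2 + δ by rw [hδ]; ring]
      ring
    rw [e3] at hK
    nlinarith [mul_pos h0 hδ0, mul_pos hδ0 hδ0, mul_pos h0 (mul_pos hδ0 hδ0),
      mul_pos hδ0 (sub_pos.mpr h1)]
  have hk1c : k1 ≤ 3 := by linarith
  -- continuous dependence
  have dep : ∀ T : ℝ, 0 ≤ T → ∃ C : ℝ, 0 < C ∧ ∀ k k', 0 ≤ k → k ≤ 3 → 0 ≤ k' → k' ≤ 3 →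
      ∀ t ∈ Icc 0 T, |Ψ k t - Ψ k' t| ≤ C * |k - k'| := by
    intro T hT
    have hKpos : 0 < 20 * a / μ ^ 2 := by positivity
    refine ⟨Real.exp (20 * a / μ ^ 2 * T) / (20 * a / μ ^ 2), by positivity, ?_⟩
    intro k k' hk0 hk3 hk0' hk3' t ht
    have h := dist_le_of_approx_trajectories_ODE (v := HH a μ k) (K := Real.toNNReal (20 * a / μ ^ 2))
      (f := Ψ k) (g := Ψ k') (f' := fun t => HH a μ k t (Ψ k t))
      (g' := fun t => HH a μ k' t (Ψ k' t)) (a := 0) (b := T) (εf := 0) (εg := |k - k'|) (δ := 0)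
      (HH_lipschitz ha h0 h1 hk0 hk3)
      (fun t _ => (hΨ k hk0 hk3 t).continuousAt.continuousWithinAt)
      (fun t _ => (hΨ k hk0 hk3 t).hasDerivWithinAt)
      (fun t _ => by simp)
      (fun t _ => (hΨ k' hk0' hk3' t).continuousAt.continuousWithinAt)
      (fun t _ => (hΨ k' hk0' hk3' t).hasDerivWithinAt)
      (fun t _ => by
        rw [Real.dist_eq, abs_sub_comm]
        exact HH_diff h0 h1 t _)
      (by rw [hΨ0 k hk0 hk3, hΨ0 k' hk0' hk3']; simp) t ht
    rw [Real.dist_eq, gronwallBound_of_K_ne_0 (by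
      rw [Real.coe_toNNReal _ hKpos.le]; exact hKpos.ne'), Real.coe_toNNReal _ hKpos.le] at h
    simp only [zero_mul, zero_add, sub_zero] at h
    have h2 : Real.exp (20 * a / μ ^ 2 * t) ≤ Real.exp (20 * a / μ ^ 2 * T) := by
      apply Real.exp_le_exp.mpr
      exact mul_le_mul_of_nonneg_left ht.2 hKpos.le
    calc |Ψ k t - Ψ k' t| ≤ |k - k'| / (20 * a / μ ^ 2) * (Real.exp (20 * a / μ ^ 2 * t) - 1) := h
      _ ≤ |k - k'| / (20 * a / μ ^ 2) * Real.exp (20 * a / μ ^ 2 * T) := by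
          apply mul_le_mul_of_nonneg_left (by linarith) (by positivity)
      _ = Real.exp (20 * a / μ ^ 2 * T) / (20 * a / μ ^ 2) * |k - k'| := by ring
  -- strict positivity
  have pos : ∀ k, 0 ≤ k → k ≤ 3 → (∀ t, 0 ≤ t → 0 ≤ Ψ k t) → ∀ t, 0 ≤ t → 0 < Ψ k t := by
    intro k hk0 hk3 hnn t ht
    rcases (hnn t ht).lt_or_eq with h | h
    · exact h
    · exfalso
      have hd := hΨ k hk0 hk3 t
      rw [← h] at hd
      have hneg : HH a μ k t 0 < 0 := by
        unfold HH NN DD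
        simp only [Real.sin_zero, Real.cos_zero]
        have hc := Real.cosh_pos t
        have : 0 < (μ * k + (2 * a + 1 - μ) * 1 ^ 2) / (2 * Real.cosh t) := by
          apply div_pos _ (by positivity)
          nlinarith [mul_nonneg h0.le hk0]
        have h2 : a * Real.tanh t * (0 * 1)
            - (μ * k + (2 * a + 1 - μ) * 1 ^ 2) / (2 * Real.cosh t) < 0 := by
          linarith
        apply div_neg_of_neg_of_pos h2
        norm_num
      have hs := (hasDerivAt_iff_tendsto_slope.mp hd).mono_left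
        (nhdsWithin_mono t (fun x (hx : x ∈ Ioi t) => ne_of_gt hx))
      have : 0 ≤ HH a μ k t 0 := by
        apply ge_of_tendsto hs
        filter_upwards [self_mem_nhdsWithin] with x hx
        rw [slope_def_field]
        apply div_nonneg _ (by linarith [mem_Ioi.mp hx])
        rw [← h]
        have := hnn x (by linarith [mem_Ioi.mp hx])
        linarith
      linarith
  -- robustness above the barrier
  have robust : ∀ k, 0 ≤ k → k ≤ 3 → (∀ t, 0 ≤ t → 0 < Ψ k t) → ∀ t0, 2 ≤ t0 →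
      bar 2 t0 < Ψ k t0 → ∃ δ, 0 < δ ∧ ∀ k', 0 ≤ k' → k' ≤ 3 → |k' - k| < δ →
        ∀ t, 0 ≤ t → 0 ≤ Ψ k' t := by
    intro k hk0 hk3 hp t0 ht0 hb
    obtain ⟨C, hC, hdep⟩ := dep t0 (by linarith)
    obtain ⟨tm, htm, hmin⟩ := (isCompact_Icc (a := (0:ℝ)) (b := t0)).exists_isMinOn
      ⟨0, by simp; linarith⟩
      (fun t _ => (hΨ k hk0 hk3 t).continuousAt.continuousWithinAt : ContinuousOn (Ψ k) (Icc 0 t0))
    have hm : 0 < Ψ k tm := hp tm htm.1
    refine ⟨min (Ψ k tm) (Ψ k t0 - bar 2 t0) / C, div_pos (lt_min hm (by linarith)) hC, ?_⟩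
    intro k' hk0' hk3' hkk
    rw [lt_div_iff₀ hC] at hkk
    have hkk1 : C * |k' - k| < Ψ k tm := by
      rw [mul_comm]
      exact lt_of_lt_of_le hkk (min_le_left _ _)
    have hkk2 : C * |k' - k| < Ψ k t0 - bar 2 t0 := by
      rw [mul_comm]
      exact lt_of_lt_of_le hkk (min_le_right _ _)
    have hclose : ∀ t ∈ Icc 0 t0, |Ψ k' t - Ψ k t| ≤ C * |k' - k| :=
      fun t ht => hdep k' k hk0' hk3' hk0 hk3 t ht
    intro t ht
    rcases le_total t t0 with htt | htt
    · have h2 := hclose t ⟨ht, htt⟩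
      have h3 : Ψ k tm ≤ Ψ k t := hmin ⟨ht, htt⟩
      rw [abs_le] at h2
      linarith [h2.1]
    · have h2 := hclose t0 ⟨by linarith, le_rfl⟩
      rw [abs_le] at h2
      have h3 : bar 2 t0 ≤ Ψ k' t0 := by linarith [h2.1]
      have h4 := comparison (HH a μ k') (Real.toNNReal (20 * a / μ ^ 2))
        (HH_lipschitz ha h0 h1 hk0' hk3') (z := bar 2) (z' := bar' 2) (w := Ψ k')
        (w' := fun t => HH a μ k' t (Ψ k' t)) (a := t0)
        (fun t _ => hasDerivAt_bar 2 t) (fun t _ => hΨ k' hk0' hk3' t)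
        (fun t ht => bar_large ha h0 h1 hk0' hk3' (by linarith)) (fun t _ => le_rfl) h3 t htt
      have := bar_pos 2 t
      linarith
  -- the good parameter
  have hgood : ∃ k, k1 ≤ k ∧ k ≤ K ∧ (∀ t, 0 ≤ t → 0 < Ψ k t) ∧ ∀ t, 2 ≤ t → Ψ k t ≤ bar 2 t := by
    set A : Set ℝ := {k | k1 ≤ k ∧ k ≤ K ∧ ∃ t, 0 ≤ t ∧ Ψ k t < 0} with hA
    have hk1A : k1 ∉ A := by
      rintro ⟨_, _, t, ht, hneg⟩
      have h4 := comparison (HH a μ k1) (Real.toNNReal (20 * a / μ ^ 2))
        (HH_lipschitz ha h0 h1 (by linarith) hk1c) (z := bar (2 / k1)) (z' := bar' (2 / k1))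
        (w := Ψ k1) (w' := fun t => HH a μ k1 t (Ψ k1 t)) (a := 0)
        (fun t _ => hasDerivAt_bar _ t) (fun t _ => hΨ k1 (by linarith) hk1c t)
        (fun t _ => bar_sub ha h0 h1 t) (fun t _ => le_rfl)
        (by rw [bar_zero, hΨ0 k1 (by linarith) hk1c]) t ht
      have := bar_pos (2 / k1) t
      linarith
    rcases A.eq_empty_or_nonempty with hemp | hne
    · have hnn : ∀ t, 0 ≤ t → 0 ≤ Ψ K t := by
        intro t ht
        by_contra hcon
        push Not at hcon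
        have : K ∈ A := ⟨hk1b.le, le_rfl, t, ht, hcon⟩
        rw [hemp] at this
        exact this
      refine ⟨K, hk1b.le, le_rfl, pos K (by linarith) hK3 hnn, ?_⟩
      intro t ht
      have h4 := comparison (HH a μ K) (Real.toNNReal (20 * a / μ ^ 2))
        (HH_lipschitz ha h0 h1 (by linarith) hK3) (z := Ψ K)
        (z' := fun t => HH a μ K t (Ψ K t)) (w := bar (2 / K)) (w' := bar' (2 / K)) (a := 0)
        (fun t _ => hΨ K (by linarith) hK3 t) (fun t _ => hasDerivAt_bar _ t)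
        (fun t _ => le_rfl) (fun t _ => bar_super h0 h1 hK2.le hK t)
        (by rw [bar_zero, hΨ0 K (by linarith) hK3]) t (by linarith)
      exact h4.trans (bar_mono (div_pos (by norm_num) (by linarith))
        (by rw [div_le_iff₀ (by linarith)]; linarith) (by linarith))
    · have hbdd : BddBelow A := ⟨k1, fun k hk => hk.1⟩
      set ks : ℝ := sInf A with hks
      have hks1 : k1 ≤ ks := le_csInf hne (fun k hk => hk.1)
      have hksK : ks ≤ K := by
        obtain ⟨k, hk⟩ := hne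
        exact (csInf_le hbdd hk).trans hk.2.1
      have hks3 : ks ≤ 3 := hksK.trans hK3
      have hksA : ks ∉ A := by
        rintro hmem
        obtain ⟨_, _, t, ht, hneg⟩ := hmem
        have hlt : k1 < ks := by
          rcases hks1.lt_or_eq with h | h
          · exact h
          · exfalso
            apply hk1A
            rw [h]
            exact ⟨hks1, hksK, t, ht, hneg⟩
        obtain ⟨C, hC, hdep⟩ := dep t ht
        set ε : ℝ := min (ks - k1) (-(Ψ ks t) / (2 * C)) with hε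
        have hεpos : 0 < ε := lt_min (by linarith) (div_pos (by linarith) (by positivity))
        have hε1 : ε ≤ ks - k1 := min_le_left _ _
        have hε2 : C * ε ≤ -(Ψ ks t) / 2 := by
          have : ε ≤ -(Ψ ks t) / (2 * C) := min_le_right _ _
          rw [le_div_iff₀ (by positivity)] at this
          linarith
        have h2 := hdep (ks - ε) ks (by linarith) (by linarith) (by linarith) hks3 t ⟨ht, le_rfl⟩
        have h3 : |ks - ε - ks| = ε := by
          rw [show ks - ε - ks = -ε by ring, abs_neg, abs_of_pos hεpos]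
        rw [h3, abs_le] at h2
        have : ks - ε ∈ A := ⟨by linarith, by linarith, t, ht, by linarith [h2.2]⟩
        have := csInf_le hbdd this
        linarith
      have hnn : ∀ t, 0 ≤ t → 0 ≤ Ψ ks t := by
        intro t ht
        by_contra hcon
        push Not at hcon
        exact hksA ⟨hks1, hksK, t, ht, hcon⟩
      have hpos := pos ks (by linarith) hks3 hnn
      refine ⟨ks, hks1, hksK, hpos, ?_⟩
      intro t ht
      by_contra hcon
      push Not at hcon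
      obtain ⟨δ, hδ, hrob⟩ := robust ks (by linarith) hks3 hpos t ht hcon
      obtain ⟨k', hk', hlt⟩ := exists_lt_of_csInf_lt hne (show sInf A < ks + δ by linarith)
      have hge : ks ≤ k' := csInf_le hbdd hk'
      obtain ⟨a1, a2, s, hs, hneg⟩ := hk'
      have := hrob k' (by linarith) (a2.trans hK3) (by rw [abs_of_nonneg (by linarith)]; linarith) s hs
      linarith
  obtain ⟨k, hka, hkb, hp, hb⟩ := hgood
  exact ⟨k, Ψ k, by linarith, hkb, hΨ0 k (by linarith) (hkb.trans hK3),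
    hΨ k (by linarith) (hkb.trans hK3), hp, hb⟩

end Pool.Agent.Y310.PR.Ode
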